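import Pool.Agent.PFD.StmtsD4

/-!
Squad PFD, part D4, row RFL (helper15): a relative Frobenius system lifts.
-/

set_option autoImplicit false

open scoped BigOperators

noncomputable section

namespace Pool.Agent.PFD.D4.H15

open Pool.Agent.PFD.D2 Pool.Agent.PFD.D2b

private theorem smul_reg {R F M : Type} [CommRing R] [Field F] (c : Cdv R F) [AddCommGroup M]
    [Module R M] [Module.Free R M] (m : M) (h : c.π • m = 0) : m = 0 := by
  let b := Module.Free.chooseBasis R M
  apply b.ext_elem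
  intro i
  have h1 := congrArg (fun z => b.repr z i) h
  simp only [map_smul, Finsupp.smul_apply, smul_eq_mul, map_zero, Finsupp.zero_apply] at h1
  rw [map_zero, Finsupp.zero_apply]
  exact c.reg _ h1

private theorem eq_zero_of {R F M : Type} [CommRing R] [Field F] (c : Cdv R F) [AddCommGroup M]
    [Module R M] [Module.Free R M] (m : M) (h : ∀ n : ℕ, ∃ m', m = c.π ^ n • m') : m = 0 := by
  let b := Module.Free.chooseBasis R M
  apply b.ext_elem
  intro i
  rw [map_zero, Finsupp.zero_apply]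
  apply c.sep
  intro n
  obtain ⟨m', hm'⟩ := h n
  refine ⟨b.repr m' i, ?_⟩
  rw [hm', map_smul, Finsupp.smul_apply, smul_eq_mul]

/-- RFL. -/
theorem rfl_ (ung : UngStmt) : RflStmt := by
  intro R F Γ Γ0 A A1 N _ _ c _ _ _ _ _ _ _ _ _ _ _ _ f fb j0 pr0 j pr _ x y hj hl hr cj cp h1 h2
  choose X hX using fun k => fb.surj (x k)
  choose Y hY using fun k => fb.surj (y k)
  let Φ : A1 →ₗ[R] A1 :=
    { toFun := fun a => ∑ k, X k * j (pr (Y k * a))
      map_add' := fun a b => by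
        simp only [mul_add, map_add, Finset.sum_add_distrib]
      map_smul' := fun r a => by
        simp only [mul_smul_comm, map_smul, Finset.smul_sum, RingHom.id_apply] }
  have hΦ : ∀ a, Φ a = ∑ k, X k * j (pr (Y k * a)) := fun a => rfl
  have hΦr : ∀ a γ, Φ (a * j γ) = Φ a * j γ := by
    intro a γ
    rw [hΦ, hΦ, Finset.sum_mul]
    refine Finset.sum_congr rfl fun k _ => ?_
    rw [← mul_assoc (Y k), hr, map_mul, mul_assoc]
  have hΦq : ∀ a, fb.q (Φ a) = fb.q a := by
    intro a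
    rw [hΦ, map_sum]
    refine (Finset.sum_congr rfl fun k _ => ?_).trans (h1 (fb.q a))
    rw [map_mul, hX, cj, ← cp, map_mul, hY]
  have hbij : Function.Bijective Φ := ung R F A1 c Φ fun a => fb.ker _ (by
    rw [map_sub, hΦq, sub_self])
  let e := LinearEquiv.ofBijective Φ hbij
  obtain ⟨Ψ, hΨ1, hΨ2⟩ : ∃ Ψ : A1 →ₗ[R] A1, (∀ a, Φ (Ψ a) = a) ∧ ∀ a, Ψ (Φ a) = a :=
    ⟨e.symm.toLinearMap, fun a => e.apply_symm_apply a, fun a => e.symm_apply_apply a⟩
  have hΨr : ∀ a γ, Ψ (a * j γ) = Ψ a * j γ := by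
    intro a γ
    apply hbij.1
    rw [hΨ1, hΦr, hΨ1]
  have e1 : ∀ a, ∑ k, Ψ (X k) * j (pr (Y k * a)) = a := by
    intro a
    have h3 := hΨ2 a
    rw [hΦ a, map_sum] at h3
    refine Eq.trans ?_ h3
    exact Finset.sum_congr rfl fun k _ => (hΨr _ _).symm
  -- an element with `pr (d * b) = 0` for all `b`
  have step : ∀ d : A1, (∀ b, pr (d * b) = 0) → ∃ d', d = c.π • d' ∧ ∀ b, pr (d' * b) = 0 := by
    intro d hd
    have h3 : fb.q d = 0 := by
      rw [← h2 (fb.q d)]
      refine Finset.sum_eq_zero fun k _ => ?_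
      rw [← hX, ← map_mul, cp, hd, map_zero, map_zero, zero_mul]
    obtain ⟨d', hd'⟩ := fb.ker _ h3
    refine ⟨d', hd', fun b => smul_reg c _ ?_⟩
    rw [← map_smul, ← smul_mul_assoc, ← hd', hd]
  have zero : ∀ d : A1, (∀ b, pr (d * b) = 0) → d = 0 := by
    intro d hd
    have h3 : ∀ n : ℕ, ∃ d', d = c.π ^ n • d' ∧ ∀ b, pr (d' * b) = 0 := by
      intro n
      induction n with
      | zero => exact ⟨d, by rw [pow_zero, one_smul], hd⟩
      | succ n ih =>
        obtain ⟨d1, h4, h5⟩ := ih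
        obtain ⟨d2, h6, h7⟩ := step d1 h5
        exact ⟨d2, by rw [h4, h6, smul_smul, pow_succ], h7⟩
    exact eq_zero_of c d fun n => by
      obtain ⟨d', h4, -⟩ := h3 n
      exact ⟨d', h4⟩
  have e2 : ∀ a, ∑ k, j (pr (a * Ψ (X k))) * Y k = a := by
    intro a
    rw [← sub_eq_zero]
    apply zero
    intro b
    have h3 : pr (a * b) = ∑ k, pr (a * Ψ (X k)) * pr (Y k * b) := by
      conv_lhs => rw [← e1 b, Finset.mul_sum, map_sum]
      refine Finset.sum_congr rfl fun k _ => ?_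
      rw [← mul_assoc, hr]
    rw [sub_mul, map_sub, h3, Finset.sum_mul, map_sum, sub_eq_zero]
    refine Finset.sum_congr rfl fun k _ => ?_
    rw [mul_assoc, hl]
  refine ⟨⟨fun k => Ψ (X k), Y, e1, e2⟩, fun k => ?_, hY⟩
  show fb.q (Ψ (X k)) = x k
  rw [← hΦq, hΨ1, hX]

end Pool.Agent.PFD.D4.H15
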